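import Pool.Agent.H50.BP.FINA
import Pool.Agent.H50.BP.ALL
import Pool.Agent.H50.BF.EXM

/-!
# Goldbach's problem in the random sieve of Banks, Ford and Tao

Banks, Ford and Tao: remove a random residue class for every prime `p` and keep the integers `n` which
are not in the classes removed for the primes `p ≤ z n`, where `∏_{p ≤ z n} (1 - 1/p)` is asymptotic to
`1 / log n`.  Almost surely all large even numbers are sums of two different elements of this random
set, and the number of representations is asymptotic to the number predicted by the singular series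
of the problem.
-/

set_option autoImplicit false

open MeasureTheory Filter Set
open scoped Topology ENNReal

namespace Pool.Agent.Results.MP_61161c_nt.RandomSieveGoldbach

/-- `∏_{p ≤ y} (1 - 1/p)` -/
noncomputable def mertens (y : ℕ) : ℝ := ∏ p ∈ (Finset.Icc 1 y).filter Nat.Prime, (1 - (p : ℝ)⁻¹)

/-- The residues of the random integers `a p` modulo the primes `p` are independent, and the residue
of `a p` modulo `p` is uniformly distributed: for all prescribed residues `c p < p`, `p ≤ w`, the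
probability of `a p ≡ c p (mod p)` for all primes `p ≤ w` is `∏_{p ≤ w} 1/p`. -/
structure RandomResidues {Ω : Type} [MeasurableSpace Ω] (P : Measure Ω) (a : ℕ → Ω → ℕ) : Prop where
  meas : ∀ p, Measurable (a p)
  law : ∀ (w : ℕ) (c : ℕ → ℕ), (∀ p : ℕ, p.Prime → c p < p) →
    P {ω | ∀ p : ℕ, p.Prime → p ≤ w → a p ω % p = c p} =
      ENNReal.ofReal (∏ p ∈ (Finset.Icc 1 w).filter Nat.Prime, (p : ℝ)⁻¹)

/-- the integers `n` with `n ≢ a p (mod p)` for all primes `p ≤ z n` -/
def randomSieve (a z : ℕ → ℕ) : Set ℕ := {n | ∀ p : ℕ, p.Prime → p ≤ z n → n % p ≠ a p % p}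

/-- the number of the representations of `N` as a sum of two different elements of `S`: the number of
the `m < N / 2` such that `m` and `N - m` belong to `S` -/
noncomputable def reps (S : Set ℕ) (N : ℕ) : ℕ := Set.ncard {m : ℕ | m ∈ S ∧ N - m ∈ S ∧ 2 * m < N}

/-- the number of the residue classes `m` modulo `p` such that `m` or `N - m` is `≡ a p`: this is `1` if
`2 a p ≡ N (mod p)`, and `2` otherwise -/
def nu (a : ℕ → ℕ) (N p : ℕ) : ℕ := if (2 * a p) % p = N % p then 1 else 2

/-- the singular series of the problem, truncated at `w`: `∏_{p ≤ w} (1 - ν(p)/p) (1 - 1/p)⁻²` -/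
noncomputable def singular (a : ℕ → ℕ) (N w : ℕ) : ℝ :=
  (∏ p ∈ (Finset.Icc 1 w).filter Nat.Prime, (1 - (nu a N p : ℝ) / p)) / mertens w ^ 2

open Pool.Agent.H50.BF Pool.Agent.H50.BP

lemma mertens_MM (w : ℕ) : mertens w = (MM w)⁻¹ := by
  unfold mertens MM
  rw [Finset.prod_inv_distrib, inv_inv]

lemma singular_SS (a : ℕ → ℕ) (N w : ℕ) : singular a N w = SS ![(1 : ℤ), -1] ![(0 : ℤ), (N : ℤ)] a w := by
  unfold singular SS
  rw [mertens_MM, inv_pow, div_inv_eq_mul]
  congr 1
  refine Finset.prod_congr rfl fun p hp => ?_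
  rw [nua_gold a N p (Finset.mem_filter.1 hp).2]
  rfl

lemma singular_ne (a : ℕ → ℕ) {N : ℕ} (hN : Even N) (w : ℕ) : singular a N w ≠ 0 := by
  unfold singular
  rw [mertens_MM, inv_pow, div_inv_eq_mul]
  refine mul_ne_zero ?_ (pow_ne_zero _ ?_)
  · rw [Finset.prod_ne_zero_iff]
    intro p hp
    have hp' := (Finset.mem_filter.1 hp).2
    have hp0 : (0 : ℝ) < p := by exact_mod_cast hp'.pos
    rw [sub_ne_zero]
    intro h
    rw [eq_div_iff hp0.ne', one_mul] at h
    have h1 : p = nu a N p := by exact_mod_cast h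
    unfold nu at h1
    split_ifs at h1 with h2
    · exact hp'.one_lt.ne' h1
    · rw [h1] at h2
      apply h2
      obtain ⟨m, hm⟩ := hN
      omega
  · unfold MM
    rw [Finset.prod_ne_zero_iff]
    intro p hp
    have hp' := (Finset.mem_filter.1 hp).2
    have hp1 : (1 : ℝ) < p := by exact_mod_cast hp'.one_lt
    have : (p : ℝ)⁻¹ < 1 := inv_lt_one_of_one_lt₀ hp1
    exact inv_ne_zero (by linarith)

lemma low : ∃ c : ℝ, 0 < c ∧ ∀ (a : ℕ → ℕ) (N w : ℕ), Even N → c ≤ singular a N w := by
  obtain ⟨c, hc, h⟩ := ssl 2 ![(1 : ℤ), -1] (by intro i; fin_cases i <;> simp)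
  refine ⟨c, hc, fun a N w hN => ?_⟩
  rw [singular_SS]
  rcases h ![(0 : ℤ), (N : ℤ)] a w with h0 | h0
  · exact absurd (by rw [singular_SS]; exact h0) (singular_ne a hN w)
  · exact h0

/-- Goldbach's problem in the random sieve. -/
theorem result :
    -- random residues exist
    (∃ (Ω : Type) (_ : MeasurableSpace Ω) (P : Measure Ω) (a : ℕ → Ω → ℕ), RandomResidues P a) ∧
    -- the singular series is bounded below for even `N`
    (∃ c : ℝ, 0 < c ∧ ∀ (a : ℕ → ℕ) (N w : ℕ), Even N → c ≤ singular a N w) ∧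
    -- the random sieve of Banks, Ford and Tao
    ∀ (Ω : Type) [MeasurableSpace Ω] (P : Measure Ω) (a : ℕ → Ω → ℕ) (z : ℕ → ℕ), RandomResidues P a →
      Monotone z → Tendsto (fun n : ℕ => Real.log n * mertens (z n)) atTop (𝓝 1) → ∀ᵐ ω ∂P,
        -- the number of representations
        Tendsto (fun j : ℕ => (reps (randomSieve (fun p => a p ω) z) (2 * j) : ℝ) * Real.log (2 * j : ℕ) ^ 2 /
          ((2 * j : ℕ) * singular (fun p => a p ω) (2 * j) ⌊Real.log (2 * j : ℕ) ^ 10⌋₊)) atTop (𝓝 (1 / 2)) ∧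
        -- Goldbach's problem for large even numbers
        ∀ᶠ N : ℕ in atTop, Even N → ∃ q r : ℕ, q ∈ randomSieve (fun p => a p ω) z ∧
          r ∈ randomSieve (fun p => a p ω) z ∧ q ≠ r ∧ q + r = N := by
  refine ⟨?_, low, ?_⟩
  · obtain ⟨Ω, mΩ, P, a, h⟩ := exm
    exact ⟨Ω, mΩ, P, a, h.meas, h.law⟩
  · intro Ω _ P a z hmod hz hlim
    have hm : Model P a := ⟨hmod.meas, hmod.law⟩
    have hlim' : Tendsto (fun n : ℕ => MM (z n) / Real.log n) atTop (𝓝 1) := by
      have h1 := hlim.inv₀ one_ne_zero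
      rw [inv_one] at h1
      refine h1.congr fun n => ?_
      rw [mertens_MM, mul_inv, inv_inv]
      ring
    filter_upwards [conc' Ω P a hm] with ω hω
    have hcon := hω 2 ![(1 : ℤ), -1] (by norm_num) (by intro i; fin_cases i <;> simp)
    have h1 := gold' (fun q => a q ω) z hz hlim' hcon
    have h2 : Tendsto (fun j : ℕ => (reps (randomSieve (fun p => a p ω) z) (2 * j) : ℝ) *
        Real.log (2 * j : ℕ) ^ 2 / ((2 * j : ℕ) * singular (fun p => a p ω) (2 * j) ⌊Real.log (2 * j : ℕ) ^ 10⌋₊))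
        atTop (𝓝 (1 / 2)) := by
      refine h1.congr fun j => ?_
      rw [singular_SS]
      rfl
    refine ⟨h2, ?_⟩
    obtain ⟨c, hc, hlow⟩ := low
    have h3 : ∀ᶠ j : ℕ in atTop, reps (randomSieve (fun p => a p ω) z) (2 * j) ≠ 0 := by
      filter_upwards [h2.eventually (lt_mem_nhds (show (0 : ℝ) < 1 / 2 by norm_num))] with j hj h0
      rw [h0] at hj
      simp at hj
    obtain ⟨j0, hj0⟩ := eventually_atTop.1 h3
    filter_upwards [eventually_ge_atTop (2 * j0)] with N hN hev
    obtain ⟨j, hj⟩ := hev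
    have h4 := hj0 j (by omega)
    have h5 : ({m : ℕ | m ∈ randomSieve (fun p => a p ω) z ∧ 2 * j - m ∈ randomSieve (fun p => a p ω) z ∧
        2 * m < 2 * j}).Nonempty := Set.nonempty_of_ncard_ne_zero h4
    obtain ⟨m, hm1, hm2, hm3⟩ := h5
    exact ⟨m, 2 * j - m, hm1, hm2, by omega, by omega⟩

end Pool.Agent.Results.MP_61161c_nt.RandomSieveGoldbach
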